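import Pool.Agent.W573.GA.Ele

/-! # A system of elements of the order of conductor `q` in `Qd t c` (port of `W613.FP.Eleq`) -/

set_option autoImplicit false

namespace Pool.Agent.W496.EG

open Finset
open Pool.Agent.W78.GA

variable {t c : ℤ}

theorem eleg (hD : t ^ 2 < 4 * c) (q : ℕ) (hq : 1 ≤ q) :
    ∃ (Ap Bp M : ℕ → Prop) (E : ℕ) (ρ : ℕ → ℤ) (ϖ : ℕ → Qd t c), Ele t c Ap Bp M E ρ ϖ ∧
    (∀ p, Ap p ∨ Bp p → Nat.Coprime p q) ∧
    ∀ m, M m → (q : ℤ) ∣ (ϖ m).im ∧ IsCoprime (ϖ m).re (q : ℤ) := by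
  have hq0 : (0 : ℤ) < q := by exact_mod_cast hq
  obtain ⟨Ap, Bp, M, E, ρ, ϖ, hE⟩ := Pool.Agent.W573.GA.ele (t := t * q) (c := c * (q : ℤ) ^ 2)
    (by nlinarith [mul_pos hq0 hq0])
  -- primes
  have hpr : ∀ p, Ap p ∨ Bp p → p.Prime ∧ 5 ≤ p ∧ Nat.Coprime p q ∧
      ¬ (p : ℤ) ∣ t ^ 2 - 4 * c := by
    intro p hp
    have h : p.Prime ∧ 5 ≤ p ∧ ¬ (p : ℤ) ∣ (t * q) ^ 2 - 4 * (c * (q : ℤ) ^ 2) := by
      rcases hp with h | h
      · exact hE.prA p h
      · exact hE.prB p h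
    have e : (t * (q : ℤ)) ^ 2 - 4 * (c * (q : ℤ) ^ 2) = q * (q * (t ^ 2 - 4 * c)) := by ring
    refine ⟨h.1, h.2.1, (Nat.Prime.coprime_iff_not_dvd h.1).mpr ?_, ?_⟩
    · intro h1
      apply h.2.2
      have h2 : (p : ℤ) ∣ (q : ℤ) := by exact_mod_cast h1
      rw [e]
      exact h2.mul_right _
    · intro h1
      apply h.2.2
      rw [e]
      exact (h1.mul_left _).mul_left _
  have hcopd : ∀ d, Sm Ap Bp d → Nat.Coprime q d := by
    intro d hd
    rw [Nat.coprime_comm]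
    apply Nat.Coprime.symm
    apply Nat.coprime_of_dvd
    intro k hk h1 h2
    have h3 := (hpr k (hd.2 k hk h2)).2.2.1
    have := Nat.eq_one_of_dvd_coprimes h3 dvd_rfl h1
    exact hk.one_lt.ne' this
  let inv : ℕ → ℤ := fun d => Nat.gcdA q d
  have hinv : ∀ d, Nat.Coprime q d → (d : ℤ) ∣ q * inv d - 1 := by
    intro d hd
    have h := Nat.gcd_eq_gcd_ab q d
    rw [hd] at h
    refine ⟨-Nat.gcdB q d, ?_⟩
    push_cast at h
    simp only [inv]
    linear_combination -h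
  let ρ' : ℕ → ℤ := fun d => ρ d * inv d
  have hρ' : ∀ d, Nat.Coprime q d → (d : ℤ) ∣ q * ρ' d - ρ d := by
    intro d hd
    have e : (q : ℤ) * ρ' d - ρ d = ρ d * (q * inv d - 1) := by simp only [ρ']; ring
    rw [e]
    exact (hinv d hd).mul_left _
  have hcopZ : ∀ d, Nat.Coprime q d → IsCoprime (d : ℤ) (q : ℤ) := fun d hd =>
    (Nat.isCoprime_iff_coprime.mpr hd).symm
  -- root
  have hroot : ∀ d, Sm Ap Bp d → (d : ℤ) ∣ ρ' d ^ 2 - t * ρ' d + c := by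
    intro d hd
    have hc := hcopd d hd
    have h1 := hE.root d hd
    have h2 : (d : ℤ) ∣ (q : ℤ) ^ 2 * (ρ' d ^ 2 - t * ρ' d + c) := by
      have e : (q : ℤ) ^ 2 * (ρ' d ^ 2 - t * ρ' d + c) =
          (ρ d ^ 2 - t * q * ρ d + c * (q : ℤ) ^ 2) +
            (q * ρ' d - ρ d) * (q * ρ' d + ρ d - t * q) := by ring
      rw [e]
      exact dvd_add h1 ((hρ' d hc).mul_right _)
    exact ((hcopZ d hc).pow_right).dvd_of_dvd_mul_left h2
  have hSmdvd : ∀ d e, Sm Ap Bp e → d ∣ e → Sm Ap Bp d := fun d e he hde =>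
    ⟨ne_zero_of_dvd_ne_zero he.1 hde, fun p hp hpd => he.2 p hp (hpd.trans hde)⟩
  have hcompat : ∀ d e, Sm Ap Bp e → d ∣ e → (d : ℤ) ∣ ρ' e - ρ' d := by
    intro d e he hde
    have hd := hSmdvd d e he hde
    have h1 := hE.compat d e he hde
    have h2 : (d : ℤ) ∣ q * ρ' e - ρ e :=
      (Int.natCast_dvd_natCast.mpr hde).trans (hρ' e (hcopd e he))
    have h3 := hρ' d (hcopd d hd)
    have h4 : (d : ℤ) ∣ (q : ℤ) * (ρ' e - ρ' d) := by
      have e1 : (q : ℤ) * (ρ' e - ρ' d) = (q * ρ' e - ρ e) + (ρ e - ρ d) - (q * ρ' d - ρ d) := by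
        ring
      rw [e1]
      exact dvd_sub (dvd_add h2 h1) h3
    exact (hcopZ d (hcopd d hd)).dvd_of_dvd_mul_left h4
  -- the elements
  let ϖ' : ℕ → Qd t c := fun m => ⟨(ϖ m).re, (q : ℤ) * (ϖ m).im⟩
  have hM : ∀ m, M m → Sm Ap Bp m := by
    intro m hm
    obtain ⟨p, p', hp, hp', rfl, -, -⟩ := hE.fac m hm
    have h1 := hpr p (Or.inl hp)
    have h2 := hpr p' (Or.inr hp')
    refine ⟨Nat.mul_ne_zero h1.1.ne_zero h2.1.ne_zero, ?_⟩
    intro l hl hld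
    rcases (Nat.Prime.dvd_mul hl).1 hld with h | h
    · rw [(Nat.prime_dvd_prime_iff_eq hl h1.1).1 h]; exact Or.inl hp
    · rw [(Nat.prime_dvd_prime_iff_eq hl h2.1).1 h]; exact Or.inr hp'
  have hnm : ∀ m, M m → (ϖ m).re ^ 2 + t * q * (ϖ m).re * (ϖ m).im +
      c * (q : ℤ) ^ 2 * (ϖ m).im ^ 2 = m := by
    intro m hm
    have h := (hE.elt m hm).1
    unfold nm at h
    have h0 : (0 : ℤ) ≤ (ϖ m).re ^ 2 + t * q * (ϖ m).re * (ϖ m).im +
        c * (q : ℤ) ^ 2 * (ϖ m).im ^ 2 := by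
      have h1 : (0 : ℤ) ≤ (4 * c - t ^ 2) * ((q : ℤ) * (ϖ m).im) ^ 2 :=
        mul_nonneg (by linarith) (sq_nonneg _)
      nlinarith [sq_nonneg (2 * (ϖ m).re + t * q * (ϖ m).im)]
    have h5 : ((((ϖ m).re ^ 2 + t * q * (ϖ m).re * (ϖ m).im +
        c * (q : ℤ) ^ 2 * (ϖ m).im ^ 2).natAbs : ℕ) : ℤ) = m := by rw [h]
    rwa [Int.natCast_natAbs, abs_of_nonneg h0] at h5
  refine ⟨Ap, Bp, M, E, ρ', ϖ', ?_, ?_, ?_⟩
  · refine
      { pos := hE.pos
        prA := ?_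
        prB := ?_
        disj := hE.disj
        fac := hE.fac
        root := hroot
        compat := hcompat
        elt := ?_
        rich := hE.rich }
    · intro p hp
      have h := hpr p (Or.inl hp)
      exact ⟨h.1, h.2.1, h.2.2.2⟩
    · intro p hp
      have h := hpr p (Or.inr hp)
      exact ⟨h.1, h.2.1, h.2.2.2⟩
    · intro m hm
      have h1 := hnm m hm
      constructor
      · unfold nm
        have e : (ϖ' m).re ^ 2 + t * (ϖ' m).re * (ϖ' m).im + c * (ϖ' m).im ^ 2 = (m : ℤ) := by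
          simp only [ϖ']
          linear_combination h1
        rw [e]
        exact Int.natAbs_natCast m
      · have h2 := (hE.elt m hm).2
        unfold lat at h2 ⊢
        have e : (ϖ' m).re + ρ' m * (ϖ' m).im = ((ϖ m).re + ρ m * (ϖ m).im) +
            (q * ρ' m - ρ m) * (ϖ m).im := by
          simp only [ϖ']
          ring
        rw [e]
        exact dvd_add h2 ((hρ' m (hcopd m (hM m hm))).mul_right _)
  · intro p hp
    exact (hpr p hp).2.2.1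
  · intro m hm
    refine ⟨⟨(ϖ m).im, rfl⟩, ?_⟩
    have h1 := hnm m hm
    have h2 : IsCoprime (m : ℤ) (q : ℤ) := hcopZ m (hcopd m (hM m hm))
    rw [← h1] at h2
    have e : (ϖ m).re ^ 2 + t * q * (ϖ m).re * (ϖ m).im + c * (q : ℤ) ^ 2 * (ϖ m).im ^ 2 =
        (ϖ m).re ^ 2 + (q : ℤ) * (t * (ϖ m).re * (ϖ m).im + c * q * (ϖ m).im ^ 2) := by ring
    rw [e] at h2
    have h4 : IsCoprime ((ϖ m).re ^ 2) (q : ℤ) := IsCoprime.of_add_mul_left_left h2
    exact (IsCoprime.pow_left_iff (by norm_num)).mp h4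

end Pool.Agent.W496.EG
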